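import Pool.Agent.Lib_helper42.AP.Component

/-! A priori `C²` estimate up to the boundary for `u₁₁ u₂₂ = 1`. -/

namespace Pool.Agent.Lib_helper42.Superseded.GlobalC2Estimate

open Set Filter Topology Metric AP

/-- **Global a priori estimate.**  Let `w` be `C³` with `w₁₁, w₂₂ ≥ c₀ > 0` on the plane, let `Ω`
be a bounded connected component of `{w < 0}` whose boundary is locally the graph of a `C³`
function, and let `K` be a number and `ω` a modulus of continuity.  Then there is a constant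
`C` such that for all boundary data `φ` of class `C³` with `‖φ‖_{C³} ≤ K` and third derivatives
having modulus `ω`, every coordinate-convex solution `u` of `u₁₁ u₂₂ = 1` in `Ω`, `u = φ` on
the boundary, which is `C³` up to the boundary, satisfies `|u|, |Du|, |D²u| ≤ C` and
`u₁₁, u₂₂ ≥ 1/C` on the closure of `Ω`. -/
theorem result (w : ℝ × ℝ → ℝ) (hw : ContDiff ℝ 3 w) (c₀ : ℝ) (hc₀ : 0 < c₀)
    (h11 : ∀ x, c₀ ≤ D1 (D1 w) x) (h22 : ∀ x, c₀ ≤ D2 (D2 w) x) (x₀ : ℝ × ℝ)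
    (hb : Bornology.IsBounded (connectedComponentIn {x | w x < 0} x₀))
    (hC : C3Boundary (connectedComponentIn {x | w x < 0} x₀))
    (K : ℝ) (ω : ℝ → ℝ) (hω : Modulus ω) :
    ∃ C : ℝ, 0 < C ∧ ∀ φ u : ℝ × ℝ → ℝ, ContDiff ℝ 3 φ → ContDiff ℝ 3 u →
      (∀ x ∈ connectedComponentIn {x | w x < 0} x₀,
        0 < D1 (D1 u) x ∧ 0 < D2 (D2 u) x ∧ D1 (D1 u) x * D2 (D2 u) x = 1) →
      (∀ x ∈ frontier (connectedComponentIn {x | w x < 0} x₀), u x = φ x) →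
      (∀ x, BdAt φ x K) →
      (∀ x y, |D1 (D1 (D1 φ)) x - D1 (D1 (D1 φ)) y| ≤ ω (dist x y)) →
      (∀ x y, |D2 (D2 (D2 φ)) x - D2 (D2 (D2 φ)) y| ≤ ω (dist x y)) →
      ∀ x ∈ closure (connectedComponentIn {x | w x < 0} x₀),
        |u x| ≤ C ∧ |D1 u x| ≤ C ∧ |D2 u x| ≤ C ∧ |D1 (D2 u) x| ≤ C ∧
        C⁻¹ ≤ D1 (D1 u) x ∧ D1 (D1 u) x ≤ C ∧ C⁻¹ ≤ D2 (D2 u) x ∧ D2 (D2 u) x ≤ C := by
  have hD : Dom w (connectedComponentIn {x | w x < 0} x₀) c₀ :=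
    Dom.of_component hw hc₀ h11 h22 hb (grad_ne_zero hw hc₀ h11 h22 hC)
  obtain ⟨C, hC0, h⟩ := apriori hD K hω
  refine ⟨C, hC0, fun φ u hφ hu hsol hbc hK hm1 hm2 => h φ u ?_ hK hm1 hm2⟩
  exact ⟨hu, hφ, fun x hx => (hsol x hx).1, fun x hx => (hsol x hx).2.1,
    fun x hx => (hsol x hx).2.2, hbc⟩

end Pool.Agent.Lib_helper42.Superseded.GlobalC2Estimate
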